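import Mathlib
import Pool.Agent.H817R5.EP.Stubs
import Pool.Agent.H20R2.EN.FLem

set_option autoImplicit false

open Finset

namespace Pool.Agent.H588R5.EP

open Pool.Agent.H817R5.EP

theorem fl2_ie (P0 : Finset ℕ) (h : ℕ → ℝ) :
    ∏ p ∈ P0, (1 - h p) = ∑ U ∈ P0.powerset, (-1) ^ U.card * ∏ p ∈ U, h p := by
  have h1 : ∏ p ∈ P0, (1 - h p) = ∏ p ∈ P0, (-h p + 1) :=
    prod_congr rfl fun p _ => by ring
  rw [h1, prod_add]
  refine sum_congr rfl fun U _ => ?_
  rw [prod_const_one, mul_one, prod_neg]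

open Classical in
theorem fl2_w (w : ℝ) (Q : ℕ → Prop) (P0 : Finset ℕ) :
    (if ∀ p ∈ P0, ¬ Q p then w else 0) =
      ∑ U ∈ P0.powerset, (-1) ^ U.card * (if ∀ p ∈ U, Q p then w else 0) := by
  have h1 := fl2_ie P0 (fun p => if Q p then (1 : ℝ) else 0)
  have h2 : ∏ p ∈ P0, (1 - (if Q p then (1 : ℝ) else 0)) = if ∀ p ∈ P0, ¬ Q p then 1 else 0 := by
    have h3 : ∏ p ∈ P0, (1 - (if Q p then (1 : ℝ) else 0)) =
        ∏ p ∈ P0, (if ¬ Q p then (1 : ℝ) else 0) := by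
      refine prod_congr rfl fun p _ => ?_
      by_cases hq : Q p <;> simp [hq]
    rw [h3, prod_ite_zero, prod_const_one]
  have h4 : ∀ U : Finset ℕ, ∏ p ∈ U, (if Q p then (1 : ℝ) else 0) =
      if ∀ p ∈ U, Q p then 1 else 0 := by
    intro U
    rw [prod_ite_zero, prod_const_one]
  rw [h2] at h1
  simp only [h4] at h1
  calc (if ∀ p ∈ P0, ¬ Q p then w else 0) = w * (if ∀ p ∈ P0, ¬ Q p then (1 : ℝ) else 0) := by
        rw [mul_ite, mul_one, mul_zero]
    _ = w * ∑ U ∈ P0.powerset, (-1) ^ U.card * (if ∀ p ∈ U, Q p then (1 : ℝ) else 0) := by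
        rw [h1]
    _ = _ := by
        rw [mul_sum]
        refine sum_congr rfl fun U _ => ?_
        by_cases hq : ∀ p ∈ U, Q p
        · rw [if_pos hq, if_pos hq]; ring
        · rw [if_neg hq, if_neg hq]; ring

open Classical in
/-- the error term -/
noncomputable def EEr (Ω : Finset ℕ) (w : ℕ → ℝ) (hit : ℕ → ℕ → Prop) (A : ℝ) (S : Finset ℕ) : ℝ :=
  ∑ m ∈ Ω.filter (fun m => ∀ p ∈ S, hit p m), w m - A * ∏ p ∈ S, 1 / (p : ℝ)

open Classical in
theorem fl2_local (Ω : Finset ℕ) (w : ℕ → ℝ) (hit : ℕ → ℕ → Prop) (A : ℝ) (P0 T : Finset ℕ)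
    (hd : Disjoint P0 T) :
    ∑ m ∈ Ω.filter (fun m => ∀ p ∈ T, hit p m), (if ∀ p ∈ P0, ¬ hit p m then w m else 0) -
        (A * ∏ p ∈ P0, (1 - 1 / (p : ℝ))) * ∏ p ∈ T, 1 / (p : ℝ) =
      ∑ U ∈ P0.powerset, (-1) ^ U.card * EEr Ω w hit A (U ∪ T) := by
  unfold EEr
  simp only [mul_sub, sum_sub_distrib]
  congr 1
  · calc ∑ m ∈ Ω.filter (fun m => ∀ p ∈ T, hit p m), (if ∀ p ∈ P0, ¬ hit p m then w m else 0)
        = ∑ m ∈ Ω.filter (fun m => ∀ p ∈ T, hit p m), ∑ U ∈ P0.powerset,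
            (-1) ^ U.card * (if ∀ p ∈ U, hit p m then w m else 0) := by
          refine sum_congr rfl fun m _ => ?_
          exact fl2_w (w m) (fun p => hit p m) P0
      _ = ∑ U ∈ P0.powerset, ∑ m ∈ Ω.filter (fun m => ∀ p ∈ T, hit p m),
            (-1) ^ U.card * (if ∀ p ∈ U, hit p m then w m else 0) := sum_comm
      _ = _ := by
          refine sum_congr rfl fun U _ => ?_
          rw [← mul_sum, ← sum_filter, filter_filter]
          congr 2
          ext m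
          simp only [mem_filter, mem_union]
          constructor
          · rintro ⟨h1, h2, h3⟩
            refine ⟨h1, fun p hp => ?_⟩
            rcases hp with hp | hp
            · exact h3 p hp
            · exact h2 p hp
          · rintro ⟨h1, h2⟩
            exact ⟨h1, fun p hp => h2 p (Or.inr hp), fun p hp => h2 p (Or.inl hp)⟩
  · rw [fl2_ie, mul_sum, sum_mul]
    refine sum_congr rfl fun U hU => ?_
    have hUT : Disjoint U T := disjoint_of_subset_left (mem_powerset.mp hU) hd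
    rw [prod_union hUT]
    ring

theorem fl2_J (z : ℕ) (hz : 2 ≤ z) : ∃ J : ℕ, z ≤ 2 ^ 2 ^ J ∧ 2 ^ 2 ^ J ≤ z ^ 2 ∧
    ((J : ℝ) + 2) ≤ 3 * (1 + Real.log z) := by
  have hex : ∃ J : ℕ, z ≤ 2 ^ 2 ^ J := ⟨z, by
    have h1 : z < 2 ^ z := Nat.lt_two_pow_self
    have h2 : 2 ^ z < 2 ^ 2 ^ z := Nat.pow_lt_pow_right (by norm_num) h1
    omega⟩
  have hlog : 0 ≤ Real.log z := Real.log_nonneg (by exact_mod_cast (by omega : 1 ≤ z))
  classical
  obtain ⟨J, hJ⟩ : ∃ J, J = Nat.find hex := ⟨_, rfl⟩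
  have h1 : z ≤ 2 ^ 2 ^ J := hJ ▸ Nat.find_spec hex
  refine ⟨J, h1, ?_, ?_⟩
  · rcases J with _ | j
    · simp only [pow_zero, pow_one]
      nlinarith
    · have h2 : ¬ z ≤ 2 ^ 2 ^ j := Nat.find_min hex (by omega)
      have h3 : 2 ^ 2 ^ j ≤ z := by omega
      calc 2 ^ 2 ^ (j + 1) = (2 ^ 2 ^ j) ^ 2 := by rw [← pow_mul, pow_succ]
        _ ≤ z ^ 2 := Nat.pow_le_pow_left h3 2
  · rcases J with _ | j
    · push_cast
      linarith
    · have h2 : ¬ z ≤ 2 ^ 2 ^ j := Nat.find_min hex (by omega)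
      have h3 : 2 ^ 2 ^ j ≤ z := by omega
      have h4 : ((2 : ℝ) ^ (2 ^ j : ℕ)) ≤ z := by exact_mod_cast h3
      have h5 := Real.log_le_log (by positivity) h4
      rw [Real.log_pow] at h5
      have h6 : j + 1 ≤ 2 ^ j := Nat.lt_two_pow_self
      have h7 : ((j : ℝ) + 1) ≤ ((2 ^ j : ℕ) : ℝ) := by exact_mod_cast h6
      have h8 : (0.69 : ℝ) < Real.log 2 := by linarith [Real.log_two_gt_d9]
      have h9 : ((j : ℝ) + 1) * 0.69 ≤ Real.log z := by
        have h10 : ((j : ℝ) + 1) * 0.69 ≤ ((2 ^ j : ℕ) : ℝ) * Real.log 2 := by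
          apply mul_le_mul h7 h8.le (by norm_num) (by positivity)
        linarith
      push_cast
      linarith

theorem fl2 : St_FL2 := by
  obtain ⟨C0, hC0, hF⟩ := Pool.Agent.H20R2.fLem 1
  obtain ⟨K', hK'⟩ : ∃ K' : ℕ, K' = ∏ p ∈ primesTo C0, p := ⟨_, rfl⟩
  have hK'1 : 1 ≤ K' := by
    rw [hK']
    refine Finset.one_le_prod' ?_
    intro p hp
    simp only [primesTo, mem_filter, mem_Icc] at hp
    exact hp.1.1
  refine ⟨2 * (C0 * C0), 3 * K', by omega, ?_⟩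
  intro z hz Ω w hit A hw hA
  classical
  obtain ⟨J, hJ1, hJ2, hJ3⟩ := fl2_J z hz
  obtain ⟨P0, hP0⟩ : ∃ P0, P0 = (primesTo z).filter (fun p => p ≤ C0) := ⟨_, rfl⟩
  obtain ⟨P1, hP1⟩ : ∃ P1, P1 = (primesTo z).filter (fun p => ¬ p ≤ C0) := ⟨_, rfl⟩
  have hdisj : Disjoint P0 P1 := by
    rw [hP0, hP1]; exact disjoint_filter_filter_not _ _ _
  have hunion : P0 ∪ P1 = primesTo z := by
    rw [hP0, hP1]; exact filter_union_filter_not_eq _ _
  have hmemz : ∀ p ∈ primesTo z, p.Prime ∧ p ≤ z := by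
    intro p hp
    simp only [primesTo, mem_filter, mem_Icc] at hp
    exact ⟨hp.2, hp.1.2⟩
  have hP1p : ∀ p ∈ P1, p.Prime ∧ C0 < p ∧ p ≤ 2 ^ 2 ^ J := by
    intro p hp
    rw [hP1, mem_filter] at hp
    obtain ⟨h1, h2⟩ := hp
    exact ⟨(hmemz p h1).1, by omega, (hmemz p h1).2.trans hJ1⟩
  have hP0sub : P0 ⊆ primesTo C0 := by
    intro p hp
    rw [hP0, mem_filter] at hp
    obtain ⟨h1, h2⟩ := hp
    simp only [primesTo, mem_filter, mem_Icc]
    exact ⟨⟨(hmemz p h1).1.one_le, h2⟩, (hmemz p h1).1⟩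
  have hg : ∀ p ∈ P1, 0 ≤ 1 / (p : ℝ) ∧ 1 / (p : ℝ) ≤ ((1 : ℕ) : ℝ) / ((p : ℝ) - 1) := by
    intro p hp
    have h2 : 2 ≤ p := (hP1p p hp).1.two_le
    have h3 : (2 : ℝ) ≤ p := by exact_mod_cast h2
    refine ⟨by positivity, ?_⟩
    push_cast
    exact one_div_le_one_div_of_le (by linarith) (by linarith)
  have hVnn : ∀ Q : Finset ℕ, 0 ≤ ∏ p ∈ Q, (1 - 1 / (p : ℝ)) := by
    intro Q
    refine prod_nonneg fun p _ => ?_
    rcases Nat.eq_zero_or_pos p with h | h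
    · subst h; simp
    · have : (1 : ℝ) ≤ p := by exact_mod_cast h
      have h2 : 1 / (p : ℝ) ≤ 1 := by
        rw [div_le_one (by linarith)]; exact this
      linarith
  have hmain := hF C0 J C0 P1 (fun p => 1 / (p : ℝ)) le_rfl le_rfl hP1p hg Ω
    (fun m => if ∀ p ∈ P0, ¬ hit p m then w m else 0) hit (A * ∏ p ∈ P0, (1 - 1 / (p : ℝ)))
    (fun T => ∑ U ∈ P0.powerset, |EEr Ω w hit A (U ∪ T)|)
    (fun m hm => by
      split_ifs
      · exact hw m hm
      · exact le_rfl)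
    (mul_nonneg hA (hVnn P0))
    (fun T hT _ => by
      rw [fl2_local Ω w hit A P0 T (disjoint_of_subset_right hT hdisj)]
      refine (abs_sum_le_sum_abs _ _).trans (le_of_eq ?_)
      refine sum_congr rfl fun U _ => ?_
      rw [abs_mul, abs_pow, abs_neg, abs_one, one_pow, one_mul])
  have hsum : ∑ m ∈ Ω.filter (fun m => ∀ p ∈ P1, ¬ hit p m),
      (if ∀ p ∈ P0, ¬ hit p m then w m else 0) =
      ∑ m ∈ Ω.filter (fun m => ∀ p ∈ primesTo z, ¬ hit p m), w m := by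
    rw [← sum_filter, filter_filter]
    congr 1
    ext m
    simp only [mem_filter]
    rw [← hunion]
    simp only [mem_union]
    constructor
    · rintro ⟨h1, h2, h3⟩
      refine ⟨h1, fun p hp => ?_⟩
      rcases hp with hp | hp
      · exact h3 p hp
      · exact h2 p hp
    · rintro ⟨h1, h2⟩
      exact ⟨h1, fun p hp => h2 p (Or.inr hp), fun p hp => h2 p (Or.inl hp)⟩
  have hV : A * (∏ p ∈ P0, (1 - 1 / (p : ℝ))) * ∏ p ∈ P1, (1 - 1 / (p : ℝ)) = A * V z := by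
    rw [V, ← hunion, prod_union hdisj, mul_assoc]
  have hmain2 : |∑ m ∈ Ω.filter (fun m => ∀ p ∈ primesTo z, ¬ hit p m), w m - A * V z| ≤
      (1 / 2 : ℝ) ^ C0 * (A * V z) + ((J : ℝ) + 2) *
        ∑ T ∈ P1.powerset.filter (fun T : Finset ℕ => ∏ p ∈ T, p ≤ (2 ^ 2 ^ J) ^ (C0 * C0)),
          ∑ U ∈ P0.powerset, |EEr Ω w hit A (U ∪ T)| := by
    rw [← hsum, ← hV]
    exact hmain
  have hAV : 0 ≤ A * V z := mul_nonneg hA (hVnn _)
  have hhalf : (1 / 2 : ℝ) ^ C0 ≤ 1 / 2 := by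
    have := pow_le_pow_of_le_one (by norm_num : (0 : ℝ) ≤ 1 / 2) (by norm_num) hC0
    simpa using this
  -- the sum of errors
  have herr : ∑ T ∈ P1.powerset.filter (fun T : Finset ℕ => ∏ p ∈ T, p ≤ (2 ^ 2 ^ J) ^ (C0 * C0)),
      ∑ U ∈ P0.powerset, |EEr Ω w hit A (U ∪ T)| ≤
      ∑ S ∈ (primesTo z).powerset.filter
        (fun S : Finset ℕ => ∏ p ∈ S, p ≤ 3 * K' * z ^ (2 * (C0 * C0))), |EEr Ω w hit A S| := by
    rw [← sum_product (f := fun x : Finset ℕ × Finset ℕ => |EEr Ω w hit A (x.2 ∪ x.1)|)]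
    have hinj : Set.InjOn (fun x : Finset ℕ × Finset ℕ => x.2 ∪ x.1)
        ((P1.powerset.filter (fun T : Finset ℕ => ∏ p ∈ T, p ≤ (2 ^ 2 ^ J) ^ (C0 * C0)) ×ˢ
          P0.powerset : Finset (Finset ℕ × Finset ℕ)) : Set (Finset ℕ × Finset ℕ)) := by
      rintro ⟨T, U⟩ h1 ⟨T', U'⟩ h2 heq
      simp only [coe_product, Set.mem_prod, mem_coe, mem_filter, mem_powerset] at h1 h2
      simp only at heq
      obtain ⟨⟨hT, -⟩, hU⟩ := h1
      obtain ⟨⟨hT', -⟩, hU'⟩ := h2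
      have hno : ∀ p, p ∈ P0 → p ∈ P1 → False := fun p h h' =>
        (disjoint_left.mp hdisj) h h'
      have e1 : T = T' := by
        ext p
        constructor
        · intro hp
          have : p ∈ U' ∪ T' := heq ▸ mem_union_right U hp
          rcases mem_union.mp this with h | h
          · exact (hno p (hU' h) (hT hp)).elim
          · exact h
        · intro hp
          have : p ∈ U ∪ T := heq.symm ▸ mem_union_right U' hp
          rcases mem_union.mp this with h | h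
          · exact (hno p (hU h) (hT' hp)).elim
          · exact h
      have e2 : U = U' := by
        ext p
        constructor
        · intro hp
          have : p ∈ U' ∪ T' := heq ▸ mem_union_left T hp
          rcases mem_union.mp this with h | h
          · exact h
          · exact (hno p (hU hp) (hT' h)).elim
        · intro hp
          have : p ∈ U ∪ T := heq.symm ▸ mem_union_left T' hp
          rcases mem_union.mp this with h | h
          · exact h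
          · exact (hno p (hU' hp) (hT h)).elim
      rw [e1, e2]
    rw [← sum_image (f := fun S : Finset ℕ => |EEr Ω w hit A S|) hinj]
    refine sum_le_sum_of_subset_of_nonneg ?_ (fun S _ _ => abs_nonneg _)
    intro S hS
    simp only [mem_image, mem_product, mem_filter, mem_powerset, Prod.exists] at hS
    obtain ⟨T, U, ⟨⟨hT, hTp⟩, hU⟩, rfl⟩ := hS
    simp only [mem_filter, mem_powerset]
    refine ⟨?_, ?_⟩
    · rw [← hunion]
      exact union_subset_union hU hT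
    · have hUT : Disjoint U T := disjoint_of_subset_left hU (disjoint_of_subset_right hT hdisj)
      rw [prod_union hUT]
      have h1 : ∏ p ∈ U, p ≤ K' := by
        rw [hK']
        refine prod_le_prod_of_subset_of_one_le' (hU.trans hP0sub) ?_
        intro p hp _
        simp only [primesTo, mem_filter, mem_Icc] at hp
        exact hp.1.1
      have h2 : ∏ p ∈ T, p ≤ z ^ (2 * (C0 * C0)) := by
        refine hTp.trans ?_
        rw [pow_mul z]
        exact Nat.pow_le_pow_left hJ2 _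
      calc (∏ p ∈ U, p) * ∏ p ∈ T, p ≤ K' * z ^ (2 * (C0 * C0)) := Nat.mul_le_mul h1 h2
        _ ≤ 3 * K' * z ^ (2 * (C0 * C0)) := Nat.mul_le_mul_right _ (by omega)
  have hEnn : 0 ≤ ∑ S ∈ (primesTo z).powerset.filter
      (fun S : Finset ℕ => ∏ p ∈ S, p ≤ 3 * K' * z ^ (2 * (C0 * C0))), |EEr Ω w hit A S| :=
    sum_nonneg fun S _ => abs_nonneg _
  have hlog : 0 ≤ Real.log z := Real.log_nonneg (by exact_mod_cast (by omega : 1 ≤ z))
  have hK3 : ((J : ℝ) + 2) ≤ ((3 * K' : ℕ) : ℝ) * (1 + Real.log z) := by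
    have h1 : (1 : ℝ) ≤ K' := by exact_mod_cast hK'1
    push_cast
    nlinarith
  refine hmain2.trans ?_
  refine add_le_add (mul_le_mul_of_nonneg_right hhalf hAV) ?_
  calc ((J : ℝ) + 2) * ∑ T ∈ P1.powerset.filter
        (fun T : Finset ℕ => ∏ p ∈ T, p ≤ (2 ^ 2 ^ J) ^ (C0 * C0)),
        ∑ U ∈ P0.powerset, |EEr Ω w hit A (U ∪ T)|
      ≤ ((J : ℝ) + 2) * ∑ S ∈ (primesTo z).powerset.filter
        (fun S : Finset ℕ => ∏ p ∈ S, p ≤ 3 * K' * z ^ (2 * (C0 * C0))), |EEr Ω w hit A S| :=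
        mul_le_mul_of_nonneg_left herr (by positivity)
    _ ≤ ((3 * K' : ℕ) : ℝ) * (1 + Real.log z) * ∑ S ∈ (primesTo z).powerset.filter
        (fun S : Finset ℕ => ∏ p ∈ S, p ≤ 3 * K' * z ^ (2 * (C0 * C0))), |EEr Ω w hit A S| :=
        mul_le_mul_of_nonneg_right hK3 hEnn

end Pool.Agent.H588R5.EP
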